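import Mathlib
import Pool.Agent.H523R3.TransMain

/-!
# Simplicial 3-polytopes with transversal ratio close to one half
-/

set_option autoImplicit false

namespace Pool.Agent.W5h28.TR

open Set Filter Topology Pool.Agent.H523R3.Trans Pool.Agent.H523R3.Frames

/-- first height function -/
def g0 (m v : ℕ) : ℤ := if v % 4 = 0 ∨ v % 4 = 3 then 16 * m - v else v

/-- second height function -/
def g1 (m v : ℕ) : ℤ := if v % 4 = 1 then 16 * m - v else if v % 4 = 2 then 2 * v - 5 else 2 * v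

/-- third height function -/
def g2 (m v : ℕ) : ℤ := if v % 4 = 2 then 16 * m - v else v

/-- the height functions -/
def gF (m : ℕ) : Fin 3 → Fin (4 * m) → ℤ :=
  ![fun v => g0 m v, fun v => g1 m v, fun v => g2 m v]

/-- being a frame -/
def Fr (m x y z : ℕ) : Prop :=
  g0 m y < g0 m x ∧ g0 m z < g0 m x ∧ g1 m x < g1 m y ∧ g1 m z < g1 m y ∧
  g2 m x < g2 m z ∧ g2 m y < g2 m z ∧
  ∀ v, v < 4 * m → v ≠ x → v ≠ y → v ≠ z → g0 m x < g0 m v ∨ g1 m y < g1 m v ∨ g2 m z < g2 m v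

lemma fr_abd {m i : ℕ} (hi : i < m) : Fr m (4 * i) (4 * i + 1) (4 * i + 3) := by
  refine ⟨?_, ?_, ?_, ?_, ?_, ?_, ?_⟩
  all_goals (first | (intro v hv h1 h2 h3) | skip)
  all_goals (simp only [g0, g1, g2]; split_ifs <;> omega)

lemma fr_acd {m i : ℕ} (hi : i < m) : Fr m (4 * i) (4 * i + 3) (4 * i + 2) := by
  refine ⟨?_, ?_, ?_, ?_, ?_, ?_, ?_⟩
  all_goals (first | (intro v hv h1 h2 h3) | skip)
  all_goals (simp only [g0, g1, g2]; split_ifs <;> omega)

lemma fr_A0 {m i : ℕ} (hi : i + 1 < m) : Fr m (4 * i + 3) (4 * i + 1) (4 * i + 4) := by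
  refine ⟨?_, ?_, ?_, ?_, ?_, ?_, ?_⟩
  all_goals (first | (intro v hv h1 h2 h3) | skip)
  all_goals (simp only [g0, g1, g2]; split_ifs <;> omega)

lemma fr_A1 {m i : ℕ} (hi : i + 1 < m) : Fr m (4 * i + 5) (4 * i + 1) (4 * i + 2) := by
  refine ⟨?_, ?_, ?_, ?_, ?_, ?_, ?_⟩
  all_goals (first | (intro v hv h1 h2 h3) | skip)
  all_goals (simp only [g0, g1, g2]; split_ifs <;> omega)

lemma fr_A2 {m i : ℕ} (hi : i + 1 < m) : Fr m (4 * i + 3) (4 * i + 6) (4 * i + 2) := by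
  refine ⟨?_, ?_, ?_, ?_, ?_, ?_, ?_⟩
  all_goals (first | (intro v hv h1 h2 h3) | skip)
  all_goals (simp only [g0, g1, g2]; split_ifs <;> omega)

lemma fr_B0 {m i : ℕ} (hi : i + 1 < m) : Fr m (4 * i + 4) (4 * i + 1) (4 * i + 5) := by
  refine ⟨?_, ?_, ?_, ?_, ?_, ?_, ?_⟩
  all_goals (first | (intro v hv h1 h2 h3) | skip)
  all_goals (simp only [g0, g1, g2]; split_ifs <;> omega)

lemma fr_B1 {m i : ℕ} (hi : i + 1 < m) : Fr m (4 * i + 6) (4 * i + 5) (4 * i + 2) := by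
  refine ⟨?_, ?_, ?_, ?_, ?_, ?_, ?_⟩
  all_goals (first | (intro v hv h1 h2 h3) | skip)
  all_goals (simp only [g0, g1, g2]; split_ifs <;> omega)

lemma fr_B2 {m i : ℕ} (hi : i + 1 < m) : Fr m (4 * i + 3) (4 * i + 4) (4 * i + 6) := by
  refine ⟨?_, ?_, ?_, ?_, ?_, ?_, ?_⟩
  all_goals (first | (intro v hv h1 h2 h3) | skip)
  all_goals (simp only [g0, g1, g2]; split_ifs <;> omega)

lemma g_anti {m x y : ℕ} (hx : x < 4 * m) (hy : y < 4 * m) (hxy : x ≠ y) :
    g0 m x < g0 m y ∨ g1 m x < g1 m y ∨ g2 m x < g2 m y := by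
  simp only [g0, g1, g2]; split_ifs <;> omega

/-- the combinatorial lower bound -/
lemma count_bound (χ : ℕ → ℕ) (hχ : ∀ j, χ j ≤ 1) (m : ℕ)
    (habd : ∀ i, i < m → 1 ≤ χ (4 * i) + χ (4 * i + 1) + χ (4 * i + 3))
    (hacd : ∀ i, i < m → 1 ≤ χ (4 * i) + χ (4 * i + 3) + χ (4 * i + 2))
    (hA0 : ∀ i, i + 1 < m → 1 ≤ χ (4 * i + 3) + χ (4 * i + 1) + χ (4 * i + 4))
    (hA1 : ∀ i, i + 1 < m → 1 ≤ χ (4 * i + 5) + χ (4 * i + 1) + χ (4 * i + 2))
    (hA2 : ∀ i, i + 1 < m → 1 ≤ χ (4 * i + 3) + χ (4 * i + 6) + χ (4 * i + 2))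
    (hB0 : ∀ i, i + 1 < m → 1 ≤ χ (4 * i + 4) + χ (4 * i + 1) + χ (4 * i + 5))
    (hB1 : ∀ i, i + 1 < m → 1 ≤ χ (4 * i + 6) + χ (4 * i + 5) + χ (4 * i + 2))
    (hB2 : ∀ i, i + 1 < m → 1 ≤ χ (4 * i + 3) + χ (4 * i + 4) + χ (4 * i + 6)) :
    ∀ i, i < m → 2 * (i + 1) ≤ (∑ j ∈ Finset.range (4 * (i + 1)), χ j) + 2 ∧
      (1 ≤ χ (4 * i + 1) + χ (4 * i + 2) + χ (4 * i + 3) →
        2 * (i + 1) ≤ (∑ j ∈ Finset.range (4 * (i + 1)), χ j) + 1) ∧
      (3 ≤ χ (4 * i + 1) + χ (4 * i + 2) + χ (4 * i + 3) →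
        2 * (i + 1) ≤ ∑ j ∈ Finset.range (4 * (i + 1)), χ j) := by
  intro i
  induction i with
  | zero =>
    intro hi
    have h1 := habd 0 hi
    have h2 := hacd 0 hi
    have e : ∑ j ∈ Finset.range (4 * (0 + 1)), χ j = χ 0 + χ 1 + χ 2 + χ 3 := by
      simp [Finset.sum_range_succ]
    rw [e]
    simp only [Nat.mul_zero, Nat.zero_add] at h1 h2 ⊢
    have := hχ 0
    have := hχ 1
    have := hχ 2
    have := hχ 3
    omega
  | succ i ih =>
    intro hi
    obtain ⟨ih1, ih2, ih3⟩ := ih (by omega)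
    have e : ∑ j ∈ Finset.range (4 * (i + 1 + 1)), χ j =
        (∑ j ∈ Finset.range (4 * (i + 1)), χ j) + χ (4 * i + 4) + χ (4 * i + 5) + χ (4 * i + 6) +
          χ (4 * i + 7) := by
      have e1 : 4 * (i + 1 + 1) = 4 * (i + 1) + 1 + 1 + 1 + 1 := by ring
      rw [e1, Finset.sum_range_succ, Finset.sum_range_succ, Finset.sum_range_succ,
        Finset.sum_range_succ]
      rfl
    rw [e]
    have e4 : 4 * (i + 1) = 4 * i + 4 := by ring
    have h1 := habd (i + 1) hi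
    have h2 := hacd (i + 1) hi
    have h3 := hA0 i hi
    have h4 := hA1 i hi
    have h5 := hA2 i hi
    have h6 := hB0 i hi
    have h7 := hB1 i hi
    have h8 := hB2 i hi
    have c1 := hχ (4 * i + 1)
    have c2 := hχ (4 * i + 2)
    have c3 := hχ (4 * i + 3)
    have c4 := hχ (4 * i + 4)
    have c5 := hχ (4 * i + 5)
    have c6 := hχ (4 * i + 6)
    have c7 := hχ (4 * i + 7)
    rw [e4] at h1 h2 ih1 ih2 ih3 ⊢
    have e5 : 4 * i + 4 + 1 = 4 * i + 5 := by ring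
    have e6 : 4 * i + 4 + 2 = 4 * i + 6 := by ring
    have e7 : 4 * i + 4 + 3 = 4 * i + 7 := by ring
    rw [e5, e7] at h1
    rw [e6, e7] at h2
    rw [e5, e6, e7]
    generalize (∑ j ∈ Finset.range (4 * i + 4), χ j) = S at *
    generalize χ (4 * i + 1) = x1 at *
    generalize χ (4 * i + 2) = x2 at *
    generalize χ (4 * i + 3) = x3 at *
    generalize χ (4 * i + 4) = x4 at *
    generalize χ (4 * i + 5) = x5 at *
    generalize χ (4 * i + 6) = x6 at *
    generalize χ (4 * i + 7) = x7 at *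
    clear hA0 hA1 hA2 hB0 hB1 hB2 habd hacd hχ e
    omega

/-- **Lower bound in dimension three.** -/
theorem exists_polytope_three (m : ℕ) (hm : 1 ≤ m) :
    ∃ p : Fin (4 * m) → E 3, IsSimplicialPolytope 3 p ∧
      1 / 2 - 1 / (2 * m : ℝ) ≤ transversalRatio (boundary p) := by
  classical
  obtain ⟨s, hs, hF, hgp⟩ := exists_paramD (by norm_num : 0 < 3) (gF m)
  have hanti : ∀ i j, i ≠ j → ∃ k, gF m k i < gF m k j := by
    intro i j hij
    have h1 := g_anti i.2 j.2 (fun h => hij (Fin.ext h))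
    rcases h1 with h | h | h
    · exact ⟨0, h⟩
    · exact ⟨1, h⟩
    · exact ⟨2, h⟩
  have hp := isSimplicialPolytope_pt (by norm_num : 0 < 3) (by omega) (gF m) hanti hs hF hgp
  refine ⟨pt (gF m) s, hp, ?_⟩
  have hn0 : 0 < 4 * m := by omega
  have hΔ := isComplex_boundary (by norm_num : 0 < 3) hp
  have hne : {k | ∃ W, IsTransversal (boundary (pt (gF m) s)) W ∧ W.card = k}.Nonempty := by
    refine ⟨_, Finset.univ, ?_, rfl⟩
    intro t ht
    have hne : t.Nonempty := by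
      by_contra hcon
      rw [Finset.not_nonempty_iff_eq_empty] at hcon
      have := ht.2 {⟨0, hn0⟩} (hΔ.vert _) (by rw [hcon]; exact Finset.empty_subset _)
      rw [hcon] at this
      exact Finset.singleton_ne_empty _ this
    obtain ⟨v, hv⟩ := hne
    exact ⟨v, hv, Finset.mem_univ v⟩
  obtain ⟨W, hW, hWcard⟩ := Nat.sInf_mem hne
  let χ : ℕ → ℕ := fun j => if h : j < 4 * m then (if (⟨j, h⟩ : Fin (4 * m)) ∈ W then 1 else 0) else 0
  have hχ : ∀ j, χ j ≤ 1 := by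
    intro j
    simp only [χ]
    split_ifs <;> norm_num
  have hχ1 : ∀ j (h : j < 4 * m), (⟨j, h⟩ : Fin (4 * m)) ∈ W → χ j = 1 := by
    intro j h hj
    simp only [χ, dif_pos h, if_pos hj]
  have hface : ∀ x y z : ℕ, x < 4 * m → y < 4 * m → z < 4 * m → Fr m x y z →
      1 ≤ χ x + χ y + χ z := by
    intro x y z hx hy hz hfr
    obtain ⟨f1, f2, f3, f4, f5, f6, f7⟩ := hfr
    have hfac := isFacet_of_frame (by norm_num : 0 < 3) (gF m) hs hF hp
      ![⟨x, hx⟩, ⟨y, hy⟩, ⟨z, hz⟩] (by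
        intro k l hkl
        fin_cases k <;> fin_cases l <;> first | (exact absurd rfl hkl) | assumption) (by
        intro v hv
        have h0 : (v : ℕ) ≠ x := fun h => hv 0 (Fin.ext h)
        have h1 : (v : ℕ) ≠ y := fun h => hv 1 (Fin.ext h)
        have h2 : (v : ℕ) ≠ z := fun h => hv 2 (Fin.ext h)
        rcases f7 v v.2 h0 h1 h2 with h | h | h
        · exact ⟨0, h⟩
        · exact ⟨1, h⟩
        · exact ⟨2, h⟩)
    obtain ⟨v, hv1, hv2⟩ := hW _ hfac
    simp only [Finset.mem_image, Finset.mem_univ, true_and] at hv1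
    obtain ⟨k, rfl⟩ := hv1
    fin_cases k
    · have := hχ1 x hx hv2
      omega
    · have := hχ1 y hy hv2
      omega
    · have := hχ1 z hz hv2
      omega
  have hcount := count_bound χ hχ m
    (fun i hi => hface _ _ _ (by omega) (by omega) (by omega) (fr_abd hi))
    (fun i hi => hface _ _ _ (by omega) (by omega) (by omega) (fr_acd hi))
    (fun i hi => hface _ _ _ (by omega) (by omega) (by omega) (fr_A0 hi))
    (fun i hi => hface _ _ _ (by omega) (by omega) (by omega) (fr_A1 hi))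
    (fun i hi => hface _ _ _ (by omega) (by omega) (by omega) (fr_A2 hi))
    (fun i hi => hface _ _ _ (by omega) (by omega) (by omega) (fr_B0 hi))
    (fun i hi => hface _ _ _ (by omega) (by omega) (by omega) (fr_B1 hi))
    (fun i hi => hface _ _ _ (by omega) (by omega) (by omega) (fr_B2 hi))
    (m - 1) (by omega)
  have hm1 : m - 1 + 1 = m := by omega
  rw [hm1] at hcount
  have hsum : ∑ j ∈ Finset.range (4 * m), χ j = W.card := by
    rw [← Fin.sum_univ_eq_sum_range]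
    have : ∀ i : Fin (4 * m), χ i = if i ∈ W then 1 else 0 := by
      intro i
      simp only [χ, dif_pos i.2]
    simp only [this]
    rw [Finset.sum_ite_mem]
    simp
  rw [hsum] at hcount
  have h1 : 2 * m ≤ W.card + 2 := hcount.1
  have h2 : (2 * m : ℝ) ≤ W.card + 2 := by exact_mod_cast h1
  have hmR : (0 : ℝ) < m := by exact_mod_cast hm
  unfold transversalRatio transversalNumber
  rw [← hWcard]
  push_cast
  rw [le_div_iff₀ (by positivity)]
  have h3 : (1 / 2 - 1 / (2 * m : ℝ)) * (4 * m) = 2 * m - 2 := by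
    field_simp
    ring
  rw [h3]
  linarith

end Pool.Agent.W5h28.TR
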