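import Mathlib
import Pool.Agent.H523R3.TransMain

/-!
# The asymptotic transversal ratio of one-dimensional spheres is at most one half
-/

set_option autoImplicit false

namespace Pool.Agent.W5h28.TR

open Set Filter Topology Pool.Agent.H523R3.Trans

/-- the vertex point of the standard simplex -/
noncomputable def vp {n : ℕ} (a : Fin n) : Fin n → ℝ := Pi.single a 1

lemma vp_same {n : ℕ} (a : Fin n) : vp a a = 1 := by simp [vp]

lemma vp_ne {n : ℕ} {a b : Fin n} (h : b ≠ a) : vp a b = 0 := by simp [vp, h]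

lemma vp_nonneg {n : ℕ} (a b : Fin n) : 0 ≤ vp a b := by
  by_cases h : b = a
  · subst h; rw [vp_same]; norm_num
  · rw [vp_ne h]

lemma sum_vp {n : ℕ} (a : Fin n) : ∑ i, vp a i = 1 := by simp [vp]

/-- points of an edge -/
noncomputable def sp {n : ℕ} (a b : Fin n) (t : ℝ) : Fin n → ℝ :=
  fun i => (1 - t) * vp a i + t * vp b i

lemma sp_mem {n : ℕ} {Δ : Set (Finset (Fin n))} (hΔ : IsComplex Δ) {a b : Fin n}
    (hab : ({a, b} : Finset (Fin n)) ∈ Δ) {t : ℝ} (h0 : 0 ≤ t) (h1 : t ≤ 1) :
    sp a b t ∈ realization Δ := by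
  classical
  refine ⟨?_, ?_, ?_⟩
  · intro i
    have h2 := vp_nonneg a i
    have h3 := vp_nonneg b i
    have h4 : 0 ≤ 1 - t := by linarith
    unfold sp
    positivity
  · unfold sp
    rw [Finset.sum_add_distrib, ← Finset.mul_sum, ← Finset.mul_sum, sum_vp, sum_vp]
    ring
  · apply hΔ.down _ hab
    intro i hi
    rw [Finset.mem_filter] at hi
    rw [Finset.mem_insert, Finset.mem_singleton]
    by_contra hcon
    push Not at hcon
    apply hi.2
    unfold sp
    rw [vp_ne hcon.1, vp_ne hcon.2]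
    ring

lemma vp_mem {n : ℕ} {Δ : Set (Finset (Fin n))} (hΔ : IsComplex Δ) (a : Fin n) :
    vp a ∈ realization Δ := by
  have h := sp_mem hΔ (a := a) (b := a) (t := 0) (by simpa using hΔ.vert a) le_rfl zero_le_one
  have : sp a a 0 = vp a := by
    funext i
    simp [sp]
  rwa [this] at h

/-- a chart of the circle without the vertex `v` -/
lemma exists_chart {n : ℕ} {Δ : Set (Finset (Fin n))} (hS : IsSimplicialSphere 2 Δ) (v : Fin n) :
    ∃ H : realization Δ → ℝ, ContinuousOn H {x | (x : Fin n → ℝ) ≠ vp v} ∧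
      InjOn H {x | (x : Fin n → ℝ) ≠ vp v} := by
  obtain ⟨hΔ, ⟨φ⟩⟩ := hS
  have : Fact (Module.finrank ℝ (E 2) = 1 + 1) := ⟨by simp⟩
  set p : Metric.sphere (0 : E 2) 1 := φ ⟨vp v, vp_mem hΔ v⟩ with hp
  have hmem : ∀ x : realization Δ, (x : Fin n → ℝ) ≠ vp v → φ x ∈ (stereographic' 1 p).source := by
    intro x hx
    rw [stereographic'_source]
    intro h
    have h2 : x = ⟨vp v, vp_mem hΔ v⟩ := φ.injective h
    exact hx (by rw [h2])
  refine ⟨fun x => (stereographic' 1 p (φ x)).ofLp 0, ?_, ?_⟩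
  · have h1 : ContinuousOn (fun x => stereographic' 1 p (φ x)) {x : realization Δ | (x : Fin n → ℝ) ≠ vp v} := by
      apply ContinuousOn.comp (stereographic' 1 p).continuousOn φ.continuous.continuousOn
      intro x hx
      exact hmem x hx
    have h2 : Continuous (fun y : EuclideanSpace ℝ (Fin 1) => y.ofLp 0) := by fun_prop
    exact h2.comp_continuousOn h1
  · intro x hx y hy hxy
    have h1 : stereographic' 1 p (φ x) = stereographic' 1 p (φ y) := by
      ext i
      have : i = 0 := Subsingleton.elim _ _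
      rw [this]
      exact hxy
    exact φ.injective ((stereographic' 1 p).injOn (hmem x hx) (hmem y hy) h1)

/-- A vertex strictly between the ends of an edge (in a chart) is impossible. -/
lemma no_between {n : ℕ} {Δ : Set (Finset (Fin n))} (hΔ : IsComplex Δ) (v : Fin n)
    {H : realization Δ → ℝ} (hc : ContinuousOn H {x | (x : Fin n → ℝ) ≠ vp v})
    (hi : InjOn H {x | (x : Fin n → ℝ) ≠ vp v}) {a b c : Fin n}
    (hab : ({a, b} : Finset (Fin n)) ∈ Δ) (hca : c ≠ a) (hcb : c ≠ b)
    (ha : a ≠ v) (hb : b ≠ v) (hcv : c ≠ v)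
    (h1 : H ⟨vp b, vp_mem hΔ b⟩ ≤ H ⟨vp c, vp_mem hΔ c⟩)
    (h2 : H ⟨vp c, vp_mem hΔ c⟩ ≤ H ⟨vp a, vp_mem hΔ a⟩) : False := by
  have : PreconnectedSpace (Icc (0 : ℝ) 1) := Subtype.preconnectedSpace isPreconnected_Icc
  let γ : Icc (0 : ℝ) 1 → realization Δ := fun t => ⟨sp a b t, sp_mem hΔ hab t.2.1 t.2.2⟩
  have hγ : Continuous γ := by
    apply Continuous.subtype_mk
    apply continuous_pi
    intro i
    unfold sp
    fun_prop
  have hne : ∀ t : Icc (0 : ℝ) 1, γ t ∈ {x : realization Δ | (x : Fin n → ℝ) ≠ vp v} := by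
    intro t h
    have h3 : sp a b t v = vp v v := congrFun h v
    rw [vp_same] at h3
    unfold sp at h3
    rw [vp_ne (Ne.symm ha), vp_ne (Ne.symm hb)] at h3
    norm_num at h3
  have hcont : Continuous (fun t => H (γ t)) := hc.comp_continuous hγ hne
  have hg0 : γ ⟨0, by norm_num⟩ = ⟨vp a, vp_mem hΔ a⟩ := by
    apply Subtype.ext
    funext i
    simp [γ, sp]
  have hg1 : γ ⟨1, by norm_num⟩ = ⟨vp b, vp_mem hΔ b⟩ := by
    apply Subtype.ext
    funext i
    simp [γ, sp]
  have hmem : H ⟨vp c, vp_mem hΔ c⟩ ∈ range (fun t => H (γ t)) := by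
    apply mem_range_of_exists_le_of_exists_ge hcont
    · exact ⟨⟨1, by norm_num⟩, by simp only [hg1]; exact h1⟩
    · exact ⟨⟨0, by norm_num⟩, by simp only [hg0]; exact h2⟩
  obtain ⟨t, ht⟩ := hmem
  have hcmem : (⟨vp c, vp_mem hΔ c⟩ : realization Δ) ∈ {x : realization Δ | (x : Fin n → ℝ) ≠ vp v} := by
    intro h
    have h3 : vp c v = vp v v := congrFun h v
    rw [vp_same, vp_ne (Ne.symm hcv)] at h3
    norm_num at h3
  have h4 := hi (hne t) hcmem ht
  have h5 : sp a b t c = vp c c := congrFun (congrArg Subtype.val h4) c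
  rw [vp_same] at h5
  unfold sp at h5
  rw [vp_ne hca, vp_ne hcb] at h5
  norm_num at h5

/-- no vertex has two neighbours below it -/
lemma no_two_lower {n : ℕ} {Δ : Set (Finset (Fin n))} (hΔ : IsComplex Δ) (v : Fin n)
    {H : realization Δ → ℝ} (hc : ContinuousOn H {x | (x : Fin n → ℝ) ≠ vp v})
    (hi : InjOn H {x | (x : Fin n → ℝ) ≠ vp v}) {a b c : Fin n}
    (hab : ({a, b} : Finset (Fin n)) ∈ Δ) (hac : ({a, c} : Finset (Fin n)) ∈ Δ)
    (hba : b ≠ a) (hca : c ≠ a) (hcb : c ≠ b)
    (ha : a ≠ v) (hb : b ≠ v) (hcv : c ≠ v)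
    (h1 : H ⟨vp b, vp_mem hΔ b⟩ ≤ H ⟨vp a, vp_mem hΔ a⟩)
    (h2 : H ⟨vp c, vp_mem hΔ c⟩ ≤ H ⟨vp a, vp_mem hΔ a⟩) : False := by
  rcases le_total (H ⟨vp b, vp_mem hΔ b⟩) (H ⟨vp c, vp_mem hΔ c⟩) with h | h
  · exact no_between hΔ v hc hi hab hca hcb ha hb hcv h h2
  · exact no_between hΔ v hc hi hac hba (Ne.symm hcb) ha hcv hb h h1

/-- faces avoiding some vertex have at most two vertices -/
lemma no_triangle {n : ℕ} {Δ : Set (Finset (Fin n))} (hS : IsSimplicialSphere 2 Δ)
    (hn : 4 ≤ n) {a b c : Fin n} (hab : a ≠ b) (hac : a ≠ c) (hbc : b ≠ c) :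
    ({a, b, c} : Finset (Fin n)) ∉ Δ := by
  classical
  intro hmem
  obtain ⟨v, hv⟩ : ∃ v : Fin n, v ∉ ({a, b, c} : Finset (Fin n)) := by
    by_contra hcon
    push Not at hcon
    have h1 : (Finset.univ : Finset (Fin n)).card ≤ ({a, b, c} : Finset (Fin n)).card :=
      Finset.card_le_card fun x _ => hcon x
    have h2 : ({a, b, c} : Finset (Fin n)).card ≤ 3 := Finset.card_le_three
    rw [Finset.card_univ, Fintype.card_fin] at h1
    omega
  simp only [Finset.mem_insert, Finset.mem_singleton, not_or] at hv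
  obtain ⟨hva, hvb, hvc⟩ : v ≠ a ∧ v ≠ b ∧ v ≠ c := hv
  obtain ⟨H, hc, hi⟩ := exists_chart hS v
  have hΔ := hS.1
  have hab' : ({a, b} : Finset (Fin n)) ∈ Δ := hΔ.down _ hmem _ (by
    intro x hx; simp only [Finset.mem_insert, Finset.mem_singleton] at hx ⊢; tauto)
  have hba' : ({b, a} : Finset (Fin n)) ∈ Δ := hΔ.down _ hmem _ (by
    intro x hx; simp only [Finset.mem_insert, Finset.mem_singleton] at hx ⊢; tauto)
  have hac' : ({a, c} : Finset (Fin n)) ∈ Δ := hΔ.down _ hmem _ (by
    intro x hx; simp only [Finset.mem_insert, Finset.mem_singleton] at hx ⊢; tauto)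
  have hca' : ({c, a} : Finset (Fin n)) ∈ Δ := hΔ.down _ hmem _ (by
    intro x hx; simp only [Finset.mem_insert, Finset.mem_singleton] at hx ⊢; tauto)
  have hbc' : ({b, c} : Finset (Fin n)) ∈ Δ := hΔ.down _ hmem _ (by
    intro x hx; simp only [Finset.mem_insert, Finset.mem_singleton] at hx ⊢; tauto)
  have hcb' : ({c, b} : Finset (Fin n)) ∈ Δ := hΔ.down _ hmem _ (by
    intro x hx; simp only [Finset.mem_insert, Finset.mem_singleton] at hx ⊢; tauto)
  rcases le_total (H ⟨vp a, vp_mem hΔ a⟩) (H ⟨vp b, vp_mem hΔ b⟩) with h1 | h1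
  · rcases le_total (H ⟨vp b, vp_mem hΔ b⟩) (H ⟨vp c, vp_mem hΔ c⟩) with h2 | h2
    · exact no_two_lower hΔ v hc hi hca' hcb' hac hbc hab.symm hvc.symm hva.symm hvb.symm
        (h1.trans h2) h2
    · exact no_two_lower hΔ v hc hi hba' hbc' hab hbc.symm hac.symm hvb.symm hva.symm hvc.symm
        h1 h2
  · rcases le_total (H ⟨vp a, vp_mem hΔ a⟩) (H ⟨vp c, vp_mem hΔ c⟩) with h2 | h2
    · exact no_two_lower hΔ v hc hi hca' hcb' hac hbc hab.symm hvc.symm hva.symm hvb.symm
        h2 (h1.trans h2)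
    · exact no_two_lower hΔ v hc hi hab' hac' hab.symm hac.symm hbc.symm hva.symm hvb.symm hvc.symm
        h1 h2

/-- there are no isolated vertices -/
lemma not_facet_singleton {n : ℕ} {Δ : Set (Finset (Fin n))} (hS : IsSimplicialSphere 2 Δ)
    (hn : 4 ≤ n) (a : Fin n) : ¬ IsFacet Δ {a} := by
  classical
  intro hf
  have hΔ := hS.1
  obtain ⟨-, ⟨φ⟩⟩ := hS
  have hconn : IsPreconnected (Metric.sphere (0 : E 2) 1) := by
    apply isPreconnected_sphere
    rw [← Module.finrank_eq_rank]
    have : Module.finrank ℝ (E 2) = 2 := by simp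
    rw [this]
    norm_num
  have : PreconnectedSpace (Metric.sphere (0 : E 2) 1) := Subtype.preconnectedSpace hconn
  have : PreconnectedSpace (realization Δ) := by
    refine ⟨?_⟩
    rw [← φ.symm.surjective.range_eq]
    exact isPreconnected_range φ.symm.continuous
  have hset : ∀ x : realization Δ, (x : Fin n → ℝ) a ≠ 0 → (x : Fin n → ℝ) a = 1 := by
    rintro ⟨x, hx0, hx1, hx2⟩ hxa
    have h1 : Finset.univ.filter (fun i => x i ≠ 0) = {a} := by
      apply hf.2 _ hx2
      intro i hi
      rw [Finset.mem_singleton] at hi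
      subst hi
      rw [Finset.mem_filter]
      exact ⟨Finset.mem_univ _, hxa⟩
    have h2 : ∀ i, i ≠ a → x i = 0 := by
      intro i hia
      by_contra hxi
      have : i ∈ Finset.univ.filter (fun i => x i ≠ 0) := by
        rw [Finset.mem_filter]; exact ⟨Finset.mem_univ _, hxi⟩
      rw [h1, Finset.mem_singleton] at this
      exact hia this
    show x a = 1
    rw [← hx1]
    symm
    apply Finset.sum_eq_single a
    · intro i _ hia
      exact h2 i hia
    · intro h
      exact absurd (Finset.mem_univ a) h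
  obtain ⟨b, hb⟩ : ∃ b : Fin n, b ≠ a := by
    by_cases h : a = ⟨0, by omega⟩
    · exact ⟨⟨1, by omega⟩, by rw [h]; simp⟩
    · exact ⟨⟨0, by omega⟩, Ne.symm h⟩
  have hcont : Continuous (fun x : realization Δ => (x : Fin n → ℝ) a) :=
    (continuous_apply a).comp continuous_subtype_val
  have hmem : (1 / 2 : ℝ) ∈ range (fun x : realization Δ => (x : Fin n → ℝ) a) := by
    apply mem_range_of_exists_le_of_exists_ge hcont
    · exact ⟨⟨vp b, vp_mem hΔ b⟩, by simp only [vp_ne (Ne.symm hb)]; norm_num⟩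
    · exact ⟨⟨vp a, vp_mem hΔ a⟩, by simp only [vp_same]; norm_num⟩
  obtain ⟨x, hx⟩ := hmem
  have hx' : (x : Fin n → ℝ) a = 1 / 2 := hx
  have := hset x (by rw [hx']; norm_num)
  rw [hx'] at this
  norm_num at this

/-- two-colouring of the edges avoiding `v` -/
lemma exists_coloring {n : ℕ} {Δ : Set (Finset (Fin n))} (hS : IsSimplicialSphere 2 Δ)
    (v : Fin n) : ∃ χ : Fin n → Bool, ∀ a b : Fin n, a ≠ v → b ≠ v → a ≠ b →
      ({a, b} : Finset (Fin n)) ∈ Δ → χ a ≠ χ b := by
  classical
  obtain ⟨H, hc, hi⟩ := exists_chart hS v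
  have hΔ := hS.1
  have key : ∀ s : Finset (Fin n), v ∉ s → ∃ χ : Fin n → Bool, ∀ a ∈ s, ∀ b ∈ s, a ≠ b →
      ({a, b} : Finset (Fin n)) ∈ Δ → χ a ≠ χ b := by
    intro s
    refine Finset.induction_on_max_value (fun a => H ⟨vp a, vp_mem hΔ a⟩) s ?_ ?_
    · intro _
      exact ⟨fun _ => true, by simp⟩
    · intro a s has hmax ih hv
      have hva : v ≠ a := fun h => hv (by rw [h]; exact Finset.mem_insert_self _ _)
      have hvs : v ∉ s := fun h => hv (Finset.mem_insert_of_mem h)
      obtain ⟨χ, hχ⟩ := ih hvs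
      by_cases hex : ∃ b ∈ s, ({a, b} : Finset (Fin n)) ∈ Δ
      · obtain ⟨b, hb, hab⟩ := hex
        have huniq : ∀ c ∈ s, ({a, c} : Finset (Fin n)) ∈ Δ → c = b := by
          intro c hcs hac
          by_contra hne
          refine no_two_lower hΔ v hc hi hab hac ?_ ?_ hne hva.symm ?_ ?_ (hmax b hb) (hmax c hcs)
          · intro h; rw [h] at hb; exact has hb
          · intro h; rw [h] at hcs; exact has hcs
          · intro h; rw [h] at hb; exact hvs hb
          · intro h; rw [h] at hcs; exact hvs hcs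
        refine ⟨Function.update χ a (!χ b), ?_⟩
        intro x hx y hy hxy hmem
        rw [Finset.mem_insert] at hx hy
        rcases hx with rfl | hx
        · rcases hy with rfl | hy
          · exact absurd rfl hxy
          · have h1 := huniq y hy hmem
            subst h1
            rw [Function.update_self, Function.update_of_ne hxy.symm]
            cases χ y <;> simp
        · rcases hy with rfl | hy
          · have h1 := huniq x hx (by rwa [Finset.pair_comm])
            subst h1
            rw [Function.update_self, Function.update_of_ne hxy]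
            cases χ x <;> simp
          · have hxa : x ≠ a := fun h => has (by rw [← h]; exact hx)
            have hya : y ≠ a := fun h => has (by rw [← h]; exact hy)
            rw [Function.update_of_ne hxa, Function.update_of_ne hya]
            exact hχ x hx y hy hxy hmem
      · push Not at hex
        refine ⟨χ, ?_⟩
        intro x hx y hy hxy hmem
        rw [Finset.mem_insert] at hx hy
        rcases hx with rfl | hx
        · rcases hy with rfl | hy
          · exact absurd rfl hxy
          · exact absurd hmem (hex y hy)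
        · rcases hy with rfl | hy
          · exact absurd (by rwa [Finset.pair_comm]) (hex x hx)
          · exact hχ x hx y hy hxy hmem
  obtain ⟨χ, hχ⟩ := key (Finset.univ.erase v) (by simp)
  refine ⟨χ, fun a b ha hb hab hmem => hχ a ?_ b ?_ hab hmem⟩
  · exact Finset.mem_erase.2 ⟨ha, Finset.mem_univ _⟩
  · exact Finset.mem_erase.2 ⟨hb, Finset.mem_univ _⟩

/-- every facet of a one-dimensional sphere with at least four vertices is an edge -/
lemma facet_pair {n : ℕ} {Δ : Set (Finset (Fin n))} (hS : IsSimplicialSphere 2 Δ)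
    (hn : 4 ≤ n) {s : Finset (Fin n)} (hs : IsFacet Δ s) : ∃ a b, a ≠ b ∧ s = {a, b} := by
  classical
  have hΔ := hS.1
  have h1 : s.card = 2 := by
    by_contra hcard
    rcases lt_or_gt_of_ne hcard with h | h
    · interval_cases hk : s.card
      · rw [Finset.card_eq_zero] at hk
        have := hs.2 {⟨0, by omega⟩} (hΔ.vert _) (by rw [hk]; exact Finset.empty_subset _)
        rw [hk] at this
        exact Finset.singleton_ne_empty _ this
      · obtain ⟨a, rfl⟩ := Finset.card_eq_one.1 hk
        exact not_facet_singleton hS hn a hs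
    · obtain ⟨t, hts, ht⟩ := Finset.exists_subset_card_eq (show 3 ≤ s.card by omega)
      obtain ⟨a, b, c, hab, hac, hbc, rfl⟩ := Finset.card_eq_three.1 ht
      exact no_triangle hS hn hab hac hbc (hΔ.down _ hs.1 _ hts)
  obtain ⟨a, b, hab, rfl⟩ := Finset.card_eq_two.1 h1
  exact ⟨a, b, hab, rfl⟩

/-- **Upper bound in dimension two.** -/
theorem transversalNumber_two {n : ℕ} {Δ : Set (Finset (Fin n))} (hS : IsSimplicialSphere 2 Δ)
    (hn : 4 ≤ n) : 2 * transversalNumber Δ ≤ n + 1 := by
  classical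
  let v : Fin n := ⟨0, by omega⟩
  obtain ⟨χ, hχ⟩ := exists_coloring hS v
  set A : Bool → Finset (Fin n) := fun β => (Finset.univ.erase v).filter (fun a => χ a = β) with hA
  have htr : ∀ β, IsTransversal Δ (insert v (A β)) := by
    intro β s hs
    obtain ⟨a, b, hab, rfl⟩ := facet_pair hS hn hs
    by_cases ha : a = v
    · exact ⟨a, by simp, by rw [ha]; exact Finset.mem_insert_self _ _⟩
    by_cases hb : b = v
    · exact ⟨b, by simp, by rw [hb]; exact Finset.mem_insert_self _ _⟩
    have h1 := hχ a b ha hb hab hs.1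
    by_cases h2 : χ a = β
    · refine ⟨a, by simp, Finset.mem_insert_of_mem ?_⟩
      rw [hA, Finset.mem_filter]
      exact ⟨Finset.mem_erase.2 ⟨ha, Finset.mem_univ _⟩, h2⟩
    · refine ⟨b, by simp, Finset.mem_insert_of_mem ?_⟩
      rw [hA, Finset.mem_filter]
      refine ⟨Finset.mem_erase.2 ⟨hb, Finset.mem_univ _⟩, ?_⟩
      revert h1 h2
      cases χ a <;> cases χ b <;> cases β <;> simp
  have hle : ∀ β, transversalNumber Δ ≤ (A β).card + 1 := by
    intro β
    have h1 : transversalNumber Δ ≤ (insert v (A β)).card := Nat.sInf_le ⟨_, htr β, rfl⟩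
    exact h1.trans (Finset.card_insert_le _ _)
  have hsum : (A true).card + (A false).card = n - 1 := by
    have h1 : (A false) = (Finset.univ.erase v).filter (fun a => ¬ χ a = true) := by
      rw [hA]
      apply Finset.filter_congr
      intro x _
      cases χ x <;> simp
    rw [h1, hA]
    rw [Finset.card_filter_add_card_filter_not, Finset.card_erase_of_mem (Finset.mem_univ _),
      Finset.card_univ, Fintype.card_fin]
  have h1 := hle true
  have h2 := hle false
  omega

end Pool.Agent.W5h28.TR
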