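import Mathlib
import Pool.Agent.H523R3.TransMain
import Pool.Agent.W5h28.TransTwo
import Pool.Agent.W5h28.TransThree

/-!
# The asymptotic transversal ratios increase with the dimension
-/

set_option autoImplicit false

namespace Pool.Agent.W5h28.TR

open Set Filter Topology Pool.Agent.H523R3.Trans

lemma limsup_le_aux (A : ℕ → Set ℝ) (h0 : ∀ n, ∀ t ∈ A n, 0 ≤ t) (b : ℝ) (hb : 0 ≤ b)
    (h : ∀ ε : ℝ, 0 < ε → ∀ᶠ n in atTop, ∀ t ∈ A n, t ≤ b + ε) :
    limsup (fun n => sSup (A n)) atTop ≤ b := by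
  have hge : ∀ n, 0 ≤ sSup (A n) := fun n => Real.sSup_nonneg (h0 n)
  have hcob : IsCoboundedUnder (· ≤ ·) atTop (fun n => sSup (A n)) :=
    IsCoboundedUnder.of_frequently_ge (a := 0) (Eventually.of_forall hge).frequently
  apply le_of_forall_pos_le_add
  intro ε hε
  apply limsup_le_of_le hcob
  filter_upwards [h ε hε] with n hn
  exact Real.sSup_le hn (by positivity)

lemma le_limsup_aux (A : ℕ → Set ℝ) (hle : ∀ n, ∀ t ∈ A n, t ≤ 1) (b : ℝ)
    (h : ∀ ε : ℝ, 0 < ε → ∃ᶠ n in atTop, ∃ t ∈ A n, b - ε ≤ t) :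
    b ≤ limsup (fun n => sSup (A n)) atTop := by
  have hu : ∀ n, sSup (A n) ≤ 1 := fun n => Real.sSup_le (hle n) zero_le_one
  have hbdd : IsBoundedUnder (· ≤ ·) atTop (fun n => sSup (A n)) :=
    isBoundedUnder_of ⟨1, hu⟩
  apply le_of_forall_pos_le_add
  intro ε hε
  have h1 : b - ε ≤ limsup (fun n => sSup (A n)) atTop := by
    apply le_limsup_of_frequently_le _ hbdd
    refine (h ε hε).mono ?_
    rintro n ⟨t, ht, h2⟩
    exact h2.trans (le_csSup ⟨1, fun x hx => hle n x hx⟩ ht)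
  linarith

lemma ratio_two {n : ℕ} {Δ : Set (Finset (Fin n))} (hS : IsSimplicialSphere 2 Δ) (hn : 4 ≤ n) :
    transversalRatio Δ ≤ 1 / 2 + 1 / (2 * n : ℝ) := by
  have h1 := transversalNumber_two hS hn
  have hnR : (0 : ℝ) < n := by
    have : 0 < n := by omega
    exact_mod_cast this
  have h2 : (2 * transversalNumber Δ : ℝ) ≤ n + 1 := by exact_mod_cast h1
  unfold transversalRatio
  rw [div_le_iff₀ hnR]
  have h3 : (1 / 2 + 1 / (2 * n : ℝ)) * n = (n + 1) / 2 := by field_simp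
  rw [h3]
  linarith

lemma eventually_small {ε : ℝ} (hε : 0 < ε) : ∀ᶠ n : ℕ in atTop, 4 ≤ n ∧ 1 / (2 * n : ℝ) ≤ ε := by
  obtain ⟨q, hq⟩ := exists_nat_gt (1 / ε)
  filter_upwards [eventually_ge_atTop (max q 4)] with n hn
  have h4 : 4 ≤ n := le_trans (le_max_right _ _) hn
  refine ⟨h4, ?_⟩
  have hnR : (0 : ℝ) < n := by
    have : 0 < n := by omega
    exact_mod_cast this
  have h1 : 1 / ε < n := lt_of_lt_of_le hq (by exact_mod_cast le_trans (le_max_left _ _) hn)
  rw [div_le_iff₀ (by positivity)]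
  rw [div_lt_iff₀ hε] at h1
  nlinarith

theorem tauS_two_le : tauS 2 ≤ 1 / 2 := by
  apply limsup_le_aux
  · rintro n t ⟨Δ, hΔ, rfl⟩
    exact transversalRatio_nonneg Δ
  · norm_num
  · intro ε hε
    filter_upwards [eventually_small hε] with n hn
    rintro t ⟨Δ, hΔ, rfl⟩
    have := ratio_two hΔ hn.1
    linarith [hn.2]

theorem tauP_two_le : tauP 2 ≤ 1 / 2 := by
  apply limsup_le_aux
  · rintro n t ⟨p, hp, rfl⟩
    exact transversalRatio_nonneg _
  · norm_num
  · intro ε hε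
    filter_upwards [eventually_small hε] with n hn
    rintro t ⟨p, hp, rfl⟩
    have := ratio_two (isSimplicialSphere_boundary (by norm_num) hp) hn.1
    linarith [hn.2]

lemma frequently_three {ε : ℝ} (hε : 0 < ε) : ∃ᶠ n : ℕ in atTop, ∃ p : Fin n → E 3,
    IsSimplicialPolytope 3 p ∧ 1 / 2 - ε ≤ transversalRatio (boundary p) := by
  rw [frequently_atTop]
  intro N
  obtain ⟨m, hm⟩ := (eventually_small hε).and (eventually_ge_atTop N) |>.exists
  obtain ⟨⟨hm4, hmε⟩, hmN⟩ := hm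
  obtain ⟨p, hp, h⟩ := exists_polytope_three m (by omega)
  exact ⟨4 * m, by omega, p, hp, by linarith⟩

theorem le_tauP_three : 1 / 2 ≤ tauP 3 := by
  apply le_limsup_aux
  · rintro n t ⟨p, hp, rfl⟩
    exact transversalRatio_le_one (isComplex_boundary (by norm_num) hp)
  · intro ε hε
    refine (frequently_three hε).mono ?_
    rintro n ⟨p, hp, h⟩
    exact ⟨_, ⟨p, hp, rfl⟩, h⟩

theorem le_tauS_three : 1 / 2 ≤ tauS 3 := by
  apply le_limsup_aux
  · rintro n t ⟨Δ, hΔ, rfl⟩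
    exact transversalRatio_le_one hΔ.1
  · intro ε hε
    refine (frequently_three hε).mono ?_
    rintro n ⟨p, hp, h⟩
    exact ⟨_, ⟨boundary p, isSimplicialSphere_boundary (by norm_num) hp, rfl⟩, h⟩

theorem tauP_le_one {d : ℕ} (hd : 0 < d) : tauP d ≤ 1 := by
  apply limsup_le_aux
  · rintro n t ⟨p, hp, rfl⟩
    exact transversalRatio_nonneg _
  · norm_num
  · intro ε hε
    refine Eventually.of_forall ?_
    rintro n t ⟨p, hp, rfl⟩
    have := transversalRatio_le_one (isComplex_boundary hd hp)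
    linarith

theorem tauS_le_one (d : ℕ) : tauS d ≤ 1 := by
  apply limsup_le_aux
  · rintro n t ⟨Δ, hΔ, rfl⟩
    exact transversalRatio_nonneg _
  · norm_num
  · intro ε hε
    refine Eventually.of_forall ?_
    rintro n t ⟨Δ, hΔ, rfl⟩
    have := transversalRatio_le_one hΔ.1
    linarith

lemma mono_aux (f : ℕ → ℝ) (h2 : f 2 ≤ 1 / 2) (h3 : 1 / 2 ≤ f 3) (h31 : f 3 ≤ 1)
    (h4 : ∀ d, 4 ≤ d → f d = 1) : ∀ d e : ℕ, 2 ≤ d → d ≤ e → f d ≤ f e := by
  intro d e hd hde
  rcases Nat.lt_or_ge d 4 with h | h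
  · rcases Nat.lt_or_ge e 4 with h' | h'
    · interval_cases d <;> interval_cases e <;> linarith
    · rw [h4 e h']
      interval_cases d <;> linarith
  · rw [h4 d h, h4 e (by omega)]

end Pool.Agent.W5h28.TR
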