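import Mathlib

/-!
Finite identities behind `sin (n θ)` and `cos (2 n θ)` in terms of `t = (2 sin θ)^2`.
-/

set_option autoImplicit false

namespace Pool.Agent.W5h28.Cheb

open Finset

variable {K : Type*} [Field K] [CharZero K]

/-- `Q n k = ∏_{j<k} (j^2 - n^2)` -/
def Q (n : K) (k : ℕ) : K := ∏ j ∈ range k, ((j : K) ^ 2 - n ^ 2)

lemma Q_zero (n : K) : Q n 0 = 1 := by simp [Q]

lemma Q_succ (n : K) (k : ℕ) : Q n (k + 1) = Q n k * ((k : K) ^ 2 - n ^ 2) := by
  unfold Q
  rw [prod_range_succ]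

lemma Q_shift (n : K) (k : ℕ) :
    Q (n + 1) (k + 1) * n = -((n + 1) * (n + k) * (n + k + 1)) * Q n k := by
  induction k with
  | zero => simp [Q]; ring
  | succ k ih =>
    rw [Q_succ (n + 1) (k + 1), Q_succ n k]
    push_cast
    linear_combination (((k : K) + 1) ^ 2 - (n + 1) ^ 2) * ih

lemma Q_neg (n : K) (k : ℕ) : Q (-n) k = Q n k := by
  unfold Q
  simp

lemma Q_shift' (n : K) (k : ℕ) :
    Q (n - 1) (k + 1) * n = -((n - 1) * (n - k) * (n - k - 1)) * Q n k := by
  have h := Q_shift (-n) k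
  rw [Q_neg, show -n + 1 = -(n - 1) by ring, Q_neg] at h
  linear_combination -h

/-- coefficient of `t^k` in `2 cos (2 n θ)`, `t = (2 sin θ)^2` -/
def cc (n : K) (k : ℕ) : K := 2 * Q n k / ((2 * k).factorial : K)

lemma cc_rec (n : K) (hn : n ≠ 0) (k : ℕ) :
    cc (n + 1) (k + 1) + cc (n - 1) (k + 1) = 2 * cc n (k + 1) - cc n k := by
  unfold cc
  have hf : ((2 * (k + 1)).factorial : K) = (2 * (k : K) + 2) * (2 * k + 1) * ((2 * k).factorial : K) := by
    rw [show 2 * (k + 1) = 2 * k + 1 + 1 by ring, Nat.factorial_succ, Nat.factorial_succ]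
    push_cast
    ring
  have h0 : ((2 * k).factorial : K) ≠ 0 := by exact_mod_cast (Nat.factorial_pos _).ne'
  have h1 : (2 * (k : K) + 2) ≠ 0 := by
    have : ((2 * k + 2 : ℕ) : K) ≠ 0 := by exact_mod_cast (by omega : 2 * k + 2 ≠ 0)
    push_cast at this
    exact this
  have h2 : (2 * (k : K) + 1) ≠ 0 := by
    have : ((2 * k + 1 : ℕ) : K) ≠ 0 := by exact_mod_cast (by omega : 2 * k + 1 ≠ 0)
    push_cast at this
    exact this
  rw [hf]
  have e1 := Q_shift n k
  have e2 := Q_shift' n k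
  have e3 := Q_succ n k
  have key : (Q (n + 1) (k + 1) + Q (n - 1) (k + 1) - 2 * Q n (k + 1) +
      (2 * (k : K) + 2) * (2 * k + 1) * Q n k) * n = 0 := by
    linear_combination e1 + e2 - 2 * n * e3
  have key' := (mul_eq_zero.1 key).resolve_right hn
  field_simp
  linear_combination key'

/-- the values `2 cos (2 n θ)` -/
def w (t : K) : ℕ → K
  | 0 => 2
  | 1 => 2 - t
  | n + 2 => (2 - t) * w t (n + 1) - w t n

lemma cc_zero (n : K) : cc n 0 = 2 := by simp [cc, Q]

lemma cc_eq_zero (n k : ℕ) (h : n < k) : cc (n : K) k = 0 := by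
  unfold cc Q
  rw [prod_eq_zero (mem_range.2 h) (by simp)]
  simp

theorem sum_cc (t : K) (n : ℕ) :
    ∀ N, n + 1 ≤ N → ∑ k ∈ range N, cc (n : K) k * t ^ k = w t n := by
  induction n using Nat.strong_induction_on with
  | _ n ih =>
    intro N hN
    match n, ih with
    | 0, _ =>
      obtain ⟨M, rfl⟩ : ∃ M, N = M + 1 := ⟨N - 1, by omega⟩
      rw [sum_range_succ', sum_eq_zero]
      · simp [cc_zero, w]
      · intro k _
        rw [cc_eq_zero 0 (k + 1) (by omega), zero_mul]
    | 1, _ =>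
      obtain ⟨M, rfl⟩ : ∃ M, N = M + 1 + 1 := ⟨N - 2, by omega⟩
      rw [sum_range_succ', sum_range_succ', sum_eq_zero]
      · simp [cc, w, Q]
        norm_num [Nat.factorial]
        ring
      · intro k _
        rw [cc_eq_zero 1 (k + 1 + 1) (by omega), zero_mul]
    | n + 2, ih =>
      obtain ⟨M, rfl⟩ : ∃ M, N = M + 1 := ⟨N - 1, by omega⟩
      have h1 := ih (n + 1) (by omega) (M + 1) (by omega)
      have h2 := ih n (by omega) (M + 1) (by omega)
      have h3 := ih (n + 1) (by omega) M (by omega)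
      rw [sum_range_succ'] at h1 h2 ⊢
      have hr : ∀ k, cc ((n + 2 : ℕ) : K) (k + 1) = 2 * cc ((n + 1 : ℕ) : K) (k + 1)
          - cc ((n + 1 : ℕ) : K) k - cc (n : K) (k + 1) := by
        intro k
        have := cc_rec ((n : K) + 1) (by exact_mod_cast (by omega : n + 1 ≠ 0)) k
        rw [add_sub_cancel_right] at this
        push_cast
        rw [show (n : K) + 2 = n + 1 + 1 by ring]
        linear_combination this
      simp only [hr]
      have e : ∑ k ∈ range M, (2 * cc ((n + 1 : ℕ) : K) (k + 1) - cc ((n + 1 : ℕ) : K) k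
          - cc (n : K) (k + 1)) * t ^ (k + 1)
          = 2 * ∑ k ∈ range M, cc ((n + 1 : ℕ) : K) (k + 1) * t ^ (k + 1)
            - t * ∑ k ∈ range M, cc ((n + 1 : ℕ) : K) k * t ^ k
            - ∑ k ∈ range M, cc (n : K) (k + 1) * t ^ (k + 1) := by
        rw [mul_sum, mul_sum, ← sum_sub_distrib, ← sum_sub_distrib]
        refine sum_congr rfl fun k _ => ?_
        ring
      rw [e, h3]
      simp only [cc_zero, pow_zero, mul_one] at h1 h2 ⊢
      rw [show w t (n + 2) = (2 - t) * w t (n + 1) - w t n from rfl]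
      linear_combination 2 * h1 - h2

/-- `R n k = ∏_{j<k} ((2j+1)^2 - n^2)` -/
def R (n : K) (k : ℕ) : K := ∏ j ∈ range k, ((2 * (j : K) + 1) ^ 2 - n ^ 2)

lemma R_succ (n : K) (k : ℕ) : R n (k + 1) = R n k * ((2 * (k : K) + 1) ^ 2 - n ^ 2) := by
  unfold R
  rw [prod_range_succ]

lemma R_neg (n : K) (k : ℕ) : R (-n) k = R n k := by
  unfold R
  simp

lemma R_shift (n : K) (k : ℕ) :
    R (n + 2) (k + 1) = -((n + 2 * k + 1) * (n + 2 * k + 3)) * R n k := by
  induction k with
  | zero => simp [R]; ring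
  | succ k ih =>
    rw [R_succ (n + 2) (k + 1), R_succ n k, ih]
    push_cast
    ring

lemma R_shift' (n : K) (k : ℕ) :
    R (n - 2) (k + 1) = -((n - 2 * k - 1) * (n - 2 * k - 3)) * R n k := by
  have h := R_shift (-n) k
  rw [R_neg, show -n + 2 = -(n - 2) by ring, R_neg] at h
  linear_combination h

/-- coefficient of `t^k` in `sin (n θ) / sin θ`, `n` odd, `t = (2 sin θ)^2` -/
def dd (n : K) (k : ℕ) : K := n * R n k / (4 ^ k * ((2 * k + 1).factorial : K))

lemma dd_rec (n : K) (k : ℕ) :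
    dd (n + 2) (k + 1) + dd (n - 2) (k + 1) = 2 * dd n (k + 1) - dd n k := by
  unfold dd
  have hf : ((2 * (k + 1) + 1).factorial : K)
      = (2 * (k : K) + 3) * (2 * k + 2) * ((2 * k + 1).factorial : K) := by
    rw [show 2 * (k + 1) + 1 = 2 * k + 1 + 1 + 1 by ring, Nat.factorial_succ,
      Nat.factorial_succ (2 * k + 1)]
    push_cast
    ring
  have h0 : ((2 * k + 1).factorial : K) ≠ 0 := by exact_mod_cast (Nat.factorial_pos _).ne'
  have h1 : (2 * (k : K) + 2) ≠ 0 := by
    have : ((2 * k + 2 : ℕ) : K) ≠ 0 := by exact_mod_cast (by omega : 2 * k + 2 ≠ 0)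
    push_cast at this
    exact this
  have h2 : (2 * (k : K) + 3) ≠ 0 := by
    have : ((2 * k + 3 : ℕ) : K) ≠ 0 := by exact_mod_cast (by omega : 2 * k + 3 ≠ 0)
    push_cast at this
    exact this
  rw [hf, R_shift, R_shift', R_succ, pow_succ]
  field_simp
  ring

lemma dd_zero (n : K) : dd n 0 = n := by simp [dd, R]

lemma dd_eq_zero (m k : ℕ) (h : m < k) : dd (2 * (m : K) + 1) k = 0 := by
  unfold dd R
  rw [prod_eq_zero (mem_range.2 h) (by simp)]
  simp

/-- the values `sin ((2m+1) θ) / sin θ` -/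
def r (t : K) : ℕ → K
  | 0 => 1
  | 1 => 3 - t
  | n + 2 => (2 - t) * r t (n + 1) - r t n

theorem sum_dd (t : K) (m : ℕ) :
    ∀ N, m + 1 ≤ N → ∑ k ∈ range N, dd (2 * (m : K) + 1) k * t ^ k = r t m := by
  induction m using Nat.strong_induction_on with
  | _ n ih =>
    intro N hN
    match n, ih with
    | 0, _ =>
      obtain ⟨M, rfl⟩ : ∃ M, N = M + 1 := ⟨N - 1, by omega⟩
      rw [sum_range_succ', sum_eq_zero]
      · simp [dd_zero, r]
      · intro k _
        rw [dd_eq_zero 0 (k + 1) (by omega), zero_mul]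
    | 1, _ =>
      obtain ⟨M, rfl⟩ : ∃ M, N = M + 1 + 1 := ⟨N - 2, by omega⟩
      rw [sum_range_succ', sum_range_succ', sum_eq_zero]
      · simp [dd, r, R]
        norm_num [Nat.factorial]
        ring
      · intro k _
        rw [dd_eq_zero 1 (k + 1 + 1) (by omega), zero_mul]
    | n + 2, ih =>
      obtain ⟨M, rfl⟩ : ∃ M, N = M + 1 := ⟨N - 1, by omega⟩
      have h1 := ih (n + 1) (by omega) (M + 1) (by omega)
      have h2 := ih n (by omega) (M + 1) (by omega)
      have h3 := ih (n + 1) (by omega) M (by omega)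
      rw [sum_range_succ'] at h1 h2 ⊢
      have hr : ∀ k, dd (2 * ((n + 2 : ℕ) : K) + 1) (k + 1)
          = 2 * dd (2 * ((n + 1 : ℕ) : K) + 1) (k + 1)
          - dd (2 * ((n + 1 : ℕ) : K) + 1) k - dd (2 * (n : K) + 1) (k + 1) := by
        intro k
        have := dd_rec (2 * ((n : K) + 1) + 1) k
        rw [show 2 * ((n : K) + 1) + 1 + 2 = 2 * ((n : K) + 2) + 1 by ring,
          show 2 * ((n : K) + 1) + 1 - 2 = 2 * (n : K) + 1 by ring] at this
        push_cast
        linear_combination this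
      simp only [hr]
      have e : ∑ k ∈ range M, (2 * dd (2 * ((n + 1 : ℕ) : K) + 1) (k + 1)
          - dd (2 * ((n + 1 : ℕ) : K) + 1) k - dd (2 * (n : K) + 1) (k + 1)) * t ^ (k + 1)
          = 2 * ∑ k ∈ range M, dd (2 * ((n + 1 : ℕ) : K) + 1) (k + 1) * t ^ (k + 1)
            - t * ∑ k ∈ range M, dd (2 * ((n + 1 : ℕ) : K) + 1) k * t ^ k
            - ∑ k ∈ range M, dd (2 * (n : K) + 1) (k + 1) * t ^ (k + 1) := by
        rw [mul_sum, mul_sum, ← sum_sub_distrib, ← sum_sub_distrib]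
        refine sum_congr rfl fun k _ => ?_
        ring
      rw [e, h3]
      simp only [dd_zero, pow_zero, mul_one] at h1 h2 ⊢
      rw [show r t (n + 2) = (2 - t) * r t (n + 1) - r t n from rfl]
      push_cast at h1 h2 ⊢
      linear_combination 2 * h1 - h2

end Pool.Agent.W5h28.Cheb
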