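import Mathlib

/-!
`Int p x`: the rational number `x` has denominator prime to `p`.
`D p n x`: `x` is `p^n` times such a number.
-/

set_option autoImplicit false

namespace Pool.Agent.W5h28.Zp

open Finset

variable {p : ℕ}

/-- denominator prime to `p` -/
def I (p : ℕ) (x : ℚ) : Prop := ¬ p ∣ x.den

lemma I_int (hp : p.Prime) (n : ℤ) : I p n := by
  unfold I
  simp only [Rat.den_intCast]
  exact hp.one_lt.ne' ∘ Nat.dvd_one.1

lemma I_nat (hp : p.Prime) (n : ℕ) : I p n := by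
  have := I_int hp (n : ℤ)
  exact_mod_cast this

lemma I_add (hp : p.Prime) {x y : ℚ} (hx : I p x) (hy : I p y) : I p (x + y) := by
  intro h
  have h1 := h.trans (Rat.add_den_dvd x y)
  rcases (hp.dvd_mul).1 h1 with h | h
  · exact hx h
  · exact hy h

lemma I_mul (hp : p.Prime) {x y : ℚ} (hx : I p x) (hy : I p y) : I p (x * y) := by
  intro h
  have h1 := h.trans (Rat.mul_den_dvd x y)
  rcases (hp.dvd_mul).1 h1 with h | h
  · exact hx h
  · exact hy h

lemma I_neg {x : ℚ} (hx : I p x) : I p (-x) := by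
  unfold I at *
  simpa using hx

lemma I_sub (hp : p.Prime) {x y : ℚ} (hx : I p x) (hy : I p y) : I p (x - y) := by
  rw [sub_eq_add_neg]
  exact I_add hp hx (I_neg hy)

lemma I_zero (hp : p.Prime) : I p 0 := by exact_mod_cast I_int hp 0

lemma I_one (hp : p.Prime) : I p 1 := by exact_mod_cast I_int hp 1

lemma I_pow (hp : p.Prime) {x : ℚ} (hx : I p x) (n : ℕ) : I p (x ^ n) := by
  induction n with
  | zero => simpa using I_one hp
  | succ n ih => rw [pow_succ]; exact I_mul hp ih hx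

lemma I_sum (hp : p.Prime) {ι : Type*} (s : Finset ι) (f : ι → ℚ) (h : ∀ i ∈ s, I p (f i)) :
    I p (∑ i ∈ s, f i) := by
  classical
  induction s using Finset.induction_on with
  | empty => simpa using I_zero hp
  | insert a s ha ih =>
    rw [sum_insert ha]
    exact I_add hp (h a (mem_insert_self a s)) (ih fun i hi => h i (mem_insert_of_mem hi))

lemma I_prod (hp : p.Prime) {ι : Type*} (s : Finset ι) (f : ι → ℚ) (h : ∀ i ∈ s, I p (f i)) :
    I p (∏ i ∈ s, f i) := by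
  classical
  induction s using Finset.induction_on with
  | empty => simpa using I_one hp
  | insert a s ha ih =>
    rw [prod_insert ha]
    exact I_mul hp (h a (mem_insert_self a s)) (ih fun i hi => h i (mem_insert_of_mem hi))

lemma I_of_mul {x : ℚ} (a b : ℤ) (hb : ¬ (p : ℤ) ∣ b) (h : x * b = a) : I p x := by
  intro hd
  have hb0 : b ≠ 0 := by rintro rfl; exact hb (dvd_zero _)
  have hx : x = (a : ℚ) / b := by
    rw [eq_div_iff (by exact_mod_cast hb0)]
    exact h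
  have h1 : ((x.den : ℤ)) ∣ b := by
    rw [hx, ← Rat.divInt_eq_div]
    exact Rat.den_dvd a b
  exact hb ((Int.natCast_dvd_natCast.2 hd).trans h1)

lemma I_inv (a : ℤ) (ha : ¬ (p : ℤ) ∣ a) : I p ((a : ℚ)⁻¹) := by
  apply I_of_mul 1 a ha
  have ha0 : (a : ℚ) ≠ 0 := by
    have : a ≠ 0 := by rintro rfl; exact ha (dvd_zero _)
    exact_mod_cast this
  rw [inv_mul_cancel₀ ha0]
  simp

lemma I_inv_nat (a : ℕ) (ha : ¬ p ∣ a) : I p ((a : ℚ)⁻¹) := by
  have := I_inv (p := p) (a : ℤ) (by exact_mod_cast ha)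
  exact_mod_cast this

/-- `p^n` times a rational number with denominator prime to `p` -/
def D (p n : ℕ) (x : ℚ) : Prop := ∃ y : ℚ, I p y ∧ x = (p : ℚ) ^ n * y

lemma D_add (hp : p.Prime) {n : ℕ} {x y : ℚ} (hx : D p n x) (hy : D p n y) : D p n (x + y) := by
  obtain ⟨a, ha, rfl⟩ := hx
  obtain ⟨b, hb, rfl⟩ := hy
  exact ⟨a + b, I_add hp ha hb, by ring⟩

lemma D_neg {n : ℕ} {x : ℚ} (hx : D p n x) : D p n (-x) := by
  obtain ⟨a, ha, rfl⟩ := hx
  exact ⟨-a, I_neg ha, by ring⟩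

lemma D_sub (hp : p.Prime) {n : ℕ} {x y : ℚ} (hx : D p n x) (hy : D p n y) : D p n (x - y) := by
  rw [sub_eq_add_neg]
  exact D_add hp hx (D_neg hy)

lemma D_zero (hp : p.Prime) (n : ℕ) : D p n 0 := ⟨0, I_zero hp, by ring⟩

lemma D_mul (hp : p.Prime) {m n : ℕ} {x y : ℚ} (hx : D p m x) (hy : D p n y) :
    D p (m + n) (x * y) := by
  obtain ⟨a, ha, rfl⟩ := hx
  obtain ⟨b, hb, rfl⟩ := hy
  exact ⟨a * b, I_mul hp ha hb, by rw [pow_add]; ring⟩

lemma D_mul_I (hp : p.Prime) {n : ℕ} {x y : ℚ} (hx : D p n x) (hy : I p y) : D p n (x * y) := by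
  obtain ⟨a, ha, rfl⟩ := hx
  exact ⟨a * y, I_mul hp ha hy, by ring⟩

lemma I_mul_D (hp : p.Prime) {n : ℕ} {x y : ℚ} (hx : I p x) (hy : D p n y) : D p n (x * y) := by
  rw [mul_comm]
  exact D_mul_I hp hy hx

lemma D_sum (hp : p.Prime) {n : ℕ} {ι : Type*} (s : Finset ι) (f : ι → ℚ)
    (h : ∀ i ∈ s, D p n (f i)) : D p n (∑ i ∈ s, f i) := by
  classical
  induction s using Finset.induction_on with
  | empty => simpa using D_zero hp n
  | insert a s ha ih =>
    rw [sum_insert ha]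
    exact D_add hp (h a (mem_insert_self a s)) (ih fun i hi => h i (mem_insert_of_mem hi))

lemma D_mono (hp : p.Prime) {m n : ℕ} (h : m ≤ n) {x : ℚ} (hx : D p n x) : D p m x := by
  obtain ⟨a, ha, rfl⟩ := hx
  obtain ⟨k, rfl⟩ := Nat.exists_eq_add_of_le h
  refine ⟨(p : ℚ) ^ k * a, I_mul hp (I_pow hp (I_nat hp p) k) ha, by rw [pow_add]; ring⟩

lemma D_zero_iff {x : ℚ} : D p 0 x ↔ I p x := by
  constructor
  · rintro ⟨y, hy, rfl⟩
    simpa using hy
  · intro h
    exact ⟨x, h, by simp⟩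

lemma I_of_D (hp : p.Prime) {n : ℕ} {x : ℚ} (h : D p n x) : I p x :=
  D_zero_iff.1 (D_mono hp (Nat.zero_le n) h)

/-- division by `p` -/
lemma D_div (hp : p.Prime) {n : ℕ} {x : ℚ} (h : D p (n + 1) x) : D p n (x / p) := by
  obtain ⟨a, ha, rfl⟩ := h
  have : (p : ℚ) ≠ 0 := by exact_mod_cast hp.ne_zero
  refine ⟨a, ha, ?_⟩
  field_simp
  ring

lemma D_p (hp : p.Prime) (n : ℕ) : D p n ((p : ℚ) ^ n) := ⟨1, I_one hp, by ring⟩

lemma D_one_of_dvd (hp : p.Prime) {a : ℤ} (h : (p : ℤ) ∣ a) : D p 1 (a : ℚ) := by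
  obtain ⟨b, rfl⟩ := h
  exact ⟨b, I_int hp b, by push_cast; ring⟩

lemma dvd_of_D_one (hp : p.Prime) {a : ℤ} (h : D p 1 (a : ℚ)) : (p : ℤ) ∣ a := by
  obtain ⟨y, hy, h⟩ := h
  rw [pow_one] at h
  have h1 : (a : ℚ) * y.den = p * y.num := by
    rw [h, mul_assoc, Rat.mul_den_eq_num]
  have h2 : a * (y.den : ℤ) = p * y.num := by exact_mod_cast h1
  have h3 : (p : ℤ) ∣ a * (y.den : ℤ) := ⟨_, h2⟩
  rcases (Nat.prime_iff_prime_int.1 hp).dvd_or_dvd h3 with h4 | h4
  · exact h4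
  · exact absurd (Int.natCast_dvd_natCast.1 h4) hy

/-- `p / C(2k, k)` has denominator prime to `p` for `2 k < p^2` -/
lemma I_p_div_centralBinom (hp : p.Prime) (k : ℕ) (hk : 2 * k < p ^ 2) :
    I p ((p : ℚ) / (Nat.centralBinom k : ℚ)) := by
  have h0 : Nat.centralBinom k ≠ 0 := Nat.centralBinom_ne_zero k
  have h1 : (Nat.centralBinom k).factorization p ≤ 1 := by
    rw [Nat.centralBinom_eq_two_mul_choose]
    exact Nat.factorization_choose_le_one hk
  have h2 := Nat.ordProj_mul_ordCompl_eq_self (Nat.centralBinom k) p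
  have h3 := Nat.not_dvd_ordCompl hp h0
  set u := Nat.centralBinom k / p ^ (Nat.centralBinom k).factorization p with hu
  have hp0 : (p : ℚ) ≠ 0 := by exact_mod_cast hp.ne_zero
  have hu0 : (u : ℚ) ≠ 0 := by
    have : u ≠ 0 := by rintro h; rw [h] at h3; exact h3 (dvd_zero _)
    exact_mod_cast this
  rw [← h2]
  interval_cases hv : (Nat.centralBinom k).factorization p
  · have : (p : ℚ) / ((p ^ 0 * u : ℕ) : ℚ) = p * (u : ℚ)⁻¹ := by push_cast; field_simp
    rw [this]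
    exact I_mul hp (I_nat hp p) (I_inv_nat u h3)
  · have : (p : ℚ) / ((p ^ 1 * u : ℕ) : ℚ) = (u : ℚ)⁻¹ := by push_cast; field_simp
    rw [this]
    exact I_inv_nat u h3

end Pool.Agent.W5h28.Zp
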