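import Pool.Agent.W5h28.Cheb
import Pool.Agent.W5h28.Zp

set_option autoImplicit false
set_option linter.unusedSectionVars false

namespace Pool.Agent.W5h28.FL

open Finset Pool.Agent.W5h28.Cheb Pool.Agent.W5h28.Zp

section coeff
variable {K : Type*} [Field K] [CharZero K]

/-- `∏_{j=1}^{k} (1 - n²/j²)` -/
def Pi1 (n : K) (k : ℕ) : K := ∏ j ∈ range k, (1 - n ^ 2 / ((j : K) + 1) ^ 2)

/-- `∏_{j=1}^{k} (1 - n²/(2j-1)²)` -/
def Pi2 (n : K) (k : ℕ) : K := ∏ j ∈ range k, (1 - n ^ 2 / (2 * (j : K) + 1) ^ 2)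

lemma two_succ_ne (k : ℕ) : (2 * (k : K) + 1) ≠ 0 := by
  have : ((2 * k + 1 : ℕ) : K) ≠ 0 := by exact_mod_cast (by omega : 2 * k + 1 ≠ 0)
  push_cast at this
  exact this

lemma succ_ne (k : ℕ) : ((k : K) + 1) ≠ 0 := by exact_mod_cast (by omega : k + 1 ≠ 0)

lemma two_three_ne (k : ℕ) : (2 * (k : K) + 3) ≠ 0 := by
  have : ((2 * k + 3 : ℕ) : K) ≠ 0 := by exact_mod_cast (by omega : 2 * k + 3 ≠ 0)
  push_cast at this
  exact this

lemma cb_succ (k : ℕ) : ((k : K) + 1) * (Nat.centralBinom (k + 1) : K)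
    = 2 * (2 * (k : K) + 1) * (Nat.centralBinom k : K) := by
  have := Nat.succ_mul_centralBinom_succ k
  have h : (((k + 1) * Nat.centralBinom (k + 1) : ℕ) : K)
      = ((2 * (2 * k + 1) * Nat.centralBinom k : ℕ) : K) := by rw [this]
  push_cast at h
  exact h

lemma cb_ne (k : ℕ) : (Nat.centralBinom k : K) ≠ 0 := by
  exact_mod_cast Nat.centralBinom_ne_zero k

lemma cc_eq (n : K) (k : ℕ) : cc n (k + 1)
    = -2 * n ^ 2 * Pi1 n k / (((k : K) + 1) ^ 2 * (Nat.centralBinom (k + 1) : K)) := by
  induction k with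
  | zero =>
    have : Nat.centralBinom (0 + 1) = 2 := by decide
    rw [this]
    simp [cc, Q, Pi1, Nat.factorial]
  | succ k ih =>
    have h1 : cc n (k + 1 + 1) = cc n (k + 1) * (((k : K) + 1) ^ 2 - n ^ 2)
        / ((2 * (k : K) + 4) * (2 * k + 3)) := by
      unfold cc
      rw [Q_succ n (k + 1)]
      have hf : ((2 * (k + 1 + 1)).factorial : K)
          = (2 * (k : K) + 4) * (2 * k + 3) * ((2 * (k + 1)).factorial : K) := by
        rw [show 2 * (k + 1 + 1) = 2 * (k + 1) + 1 + 1 by ring, Nat.factorial_succ,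
          Nat.factorial_succ]
        push_cast
        ring
      rw [hf]
      push_cast
      have h0 : ((2 * (k + 1)).factorial : K) ≠ 0 := by exact_mod_cast (Nat.factorial_pos _).ne'
      have h4 : (2 * (k : K) + 4) ≠ 0 := by
        have : ((2 * k + 4 : ℕ) : K) ≠ 0 := by exact_mod_cast (by omega : 2 * k + 4 ≠ 0)
        push_cast at this
        exact this
      have h3 := two_three_ne (K := K) k
      field_simp
    rw [h1, ih]
    have e : Pi1 n (k + 1) = Pi1 n k * (1 - n ^ 2 / ((k : K) + 1) ^ 2) := by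
      unfold Pi1; rw [prod_range_succ]
    rw [e]
    have hc := cb_succ (K := K) (k + 1)
    push_cast at hc ⊢
    have a1 := succ_ne (K := K) k
    have a2 := succ_ne (K := K) (k + 1)
    have a3 := two_three_ne (K := K) k
    have a4 := cb_ne (K := K) (k + 1)
    have a5 := cb_ne (K := K) (k + 1 + 1)
    push_cast at a2
    have a6 : (2 * (k : K) + 4) ≠ 0 := by
      intro h
      apply a2
      linear_combination h / 2
    have hc' : (Nat.centralBinom (k + 1 + 1) : K)
        = 2 * (2 * (k : K) + 3) * (Nat.centralBinom (k + 1) : K) / ((k : K) + 1 + 1) := by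
      rw [eq_div_iff a2]
      linear_combination hc
    rw [hc']
    field_simp
    ring

lemma dd_eq (n : K) (k : ℕ) : dd n k
    = n * Pi2 n k * (Nat.centralBinom k : K) / (16 ^ k * (2 * (k : K) + 1)) := by
  induction k with
  | zero => simp [dd, R, Pi2]
  | succ k ih =>
    have h1 : dd n (k + 1) = dd n k * ((2 * (k : K) + 1) ^ 2 - n ^ 2)
        / (4 * ((2 * (k : K) + 3) * (2 * k + 2))) := by
      unfold dd
      rw [R_succ n k]
      have hf : ((2 * (k + 1) + 1).factorial : K)
          = (2 * (k : K) + 3) * (2 * k + 2) * ((2 * k + 1).factorial : K) := by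
        rw [show 2 * (k + 1) + 1 = 2 * k + 1 + 1 + 1 by ring, Nat.factorial_succ,
          Nat.factorial_succ (2 * k + 1)]
        push_cast
        ring
      rw [hf, pow_succ]
      have h0 : ((2 * k + 1).factorial : K) ≠ 0 := by exact_mod_cast (Nat.factorial_pos _).ne'
      have h4 : (2 * (k : K) + 2) ≠ 0 := by
        have := succ_ne (K := K) k
        intro h
        apply this
        linear_combination h / 2
      have h3 := two_three_ne (K := K) k
      field_simp
      ring
    rw [h1, ih]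
    have e : Pi2 n (k + 1) = Pi2 n k * (1 - n ^ 2 / (2 * (k : K) + 1) ^ 2) := by
      unfold Pi2; rw [prod_range_succ]
    rw [e]
    have hc := cb_succ (K := K) k
    have a1 := succ_ne (K := K) k
    have a2 := two_succ_ne (K := K) k
    have a3 := two_three_ne (K := K) k
    have a4 : (2 * (k : K) + 2) ≠ 0 := by
      intro h
      apply a1
      linear_combination h / 2
    have a5 : (2 * ((k : K) + 1) + 1) ≠ 0 := by
      intro h
      apply a3
      linear_combination h
    have hc' : (Nat.centralBinom (k + 1) : K)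
        = 2 * (2 * (k : K) + 1) * (Nat.centralBinom k : K) / ((k : K) + 1) := by
      rw [eq_div_iff a1]
      linear_combination hc
    rw [hc', pow_succ]
    push_cast
    field_simp
    ring

lemma cc_self (n : ℕ) : cc ((n + 1 : ℕ) : K) (n + 1) = (-1) ^ (n + 1) := by
  induction n using Nat.strong_induction_on with
  | _ n ih =>
    match n, ih with
    | 0, _ => simp [cc, Q, Nat.factorial]
    | n + 1, ih =>
      have h := cc_rec ((n + 1 : ℕ) : K) (by exact_mod_cast (by omega : n + 1 ≠ 0)) (n + 1)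
      have h1 := ih n (by omega)
      have h2 := cc_eq_zero (K := K) (n + 1) (n + 1 + 1) (by omega)
      have h3 := cc_eq_zero (K := K) n (n + 1 + 1) (by omega)
      rw [h1, h2] at h
      push_cast at h h3 ⊢
      rw [add_sub_cancel_right, h3] at h
      rw [pow_succ]
      linear_combination h

lemma dd_self (m : ℕ) : dd (2 * (m : K) + 1) m = (-1) ^ m := by
  induction m using Nat.strong_induction_on with
  | _ n ih =>
    match n, ih with
    | 0, _ => simp [dd_zero]
    | 1, _ =>
      simp [dd, R, Nat.factorial]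
      norm_num
    | n + 2, ih =>
      have h := dd_rec (2 * ((n + 1 : ℕ) : K) + 1) (n + 1)
      have h1 := ih (n + 1) (by omega)
      have h2 := dd_eq_zero (K := K) (n + 1) (n + 1 + 1) (by omega)
      have h3 := dd_eq_zero (K := K) n (n + 1 + 1) (by omega)
      rw [h1, h2] at h
      rw [show 2 * ((n + 1 : ℕ) : K) + 1 - 2 = 2 * (n : K) + 1 by push_cast; ring, h3,
        show 2 * ((n + 1 : ℕ) : K) + 1 + 2 = 2 * ((n + 2 : ℕ) : K) + 1 by push_cast; ring] at h
      rw [show n + 2 = n + 1 + 1 from rfl] at *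
      rw [pow_succ]
      linear_combination h

end coeff

section period
variable {K : Type*} [Field K]

lemma w_period (t c : K) (hc : 2 - t = c) (h : c ^ 2 = c + 1) (n : ℕ) :
    w t (n + 5) = -w t n := by
  have h2 : ∀ n, w t (n + 2) = c * w t (n + 1) - w t n := by
    intro n
    rw [← hc]
    rfl
  have e0 : w t 0 = 2 := rfl
  have e1 : w t 1 = c := by rw [← hc]; rfl
  have e2 := h2 0
  have e3 := h2 1
  have e4 := h2 2
  have e5 := h2 3
  have e6 := h2 4
  norm_num at e2 e3 e4 e5 e6
  induction n using Nat.strong_induction_on with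
  | _ n ih =>
    match n, ih with
    | 0, _ =>
      rw [show 0 + 5 = 5 from rfl, e5, e4, e3, e2, e1, e0]
      linear_combination (c ^ 3 + c ^ 2 - 3 * c - 2) * h
    | 1, _ =>
      rw [show 1 + 5 = 6 from rfl, e6, e5, e4, e3, e2, e1, e0]
      linear_combination (c ^ 4 + c ^ 3 - 4 * c ^ 2 - 3 * c + 2) * h
    | n + 2, ih =>
      rw [show n + 2 + 5 = n + 5 + 2 by ring, h2 (n + 5), h2 n,
        show n + 5 + 1 = n + 1 + 5 by ring, ih n (by omega), ih (n + 1) (by omega)]
      ring

lemma w_small (t c : K) (hc : 2 - t = c) (h : c ^ 2 = c + 1) :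
    w t 0 = 2 ∧ w t 1 = c ∧ w t 2 = c - 1 ∧ w t 3 = 1 - c ∧ w t 4 = -c := by
  have h2 : ∀ n, w t (n + 2) = c * w t (n + 1) - w t n := by
    intro n
    rw [← hc]
    rfl
  have e0 : w t 0 = 2 := rfl
  have e1 : w t 1 = c := by rw [← hc]; rfl
  have e2 := h2 0
  have e3 := h2 1
  have e4 := h2 2
  norm_num at e2 e3 e4
  refine ⟨e0, e1, ?_, ?_, ?_⟩
  · rw [e2, e1, e0]; linear_combination h
  · rw [e3, e2, e1, e0]; linear_combination (c + 1) * h
  · rw [e4, e3, e2, e1, e0]; linear_combination (c ^ 2 + c - 2) * h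

lemma r_period (t c : K) (hc : 2 - t = c) (h : c ^ 2 = c + 1) (n : ℕ) :
    r t (n + 5) = -r t n := by
  have h2 : ∀ n, r t (n + 2) = c * r t (n + 1) - r t n := by
    intro n
    rw [← hc]
    rfl
  have e0 : r t 0 = 1 := rfl
  have e1 : r t 1 = 1 + c := by rw [← hc]; show 3 - t = _; ring
  have e2 := h2 0
  have e3 := h2 1
  have e4 := h2 2
  have e5 := h2 3
  have e6 := h2 4
  norm_num at e2 e3 e4 e5 e6
  induction n using Nat.strong_induction_on with
  | _ n ih =>
    match n, ih with
    | 0, _ =>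
      rw [show 0 + 5 = 5 from rfl, e5, e4, e3, e2, e1, e0]
      linear_combination (c ^ 3 + 2 * c ^ 2 - c - 2) * h
    | 1, _ =>
      rw [show 1 + 5 = 6 from rfl, e6, e5, e4, e3, e2, e1, e0]
      linear_combination (c ^ 4 + 2 * c ^ 3 - 2 * c ^ 2 - 4 * c) * h
    | n + 2, ih =>
      rw [show n + 2 + 5 = n + 5 + 2 by ring, h2 (n + 5), h2 n,
        show n + 5 + 1 = n + 1 + 5 by ring, ih n (by omega), ih (n + 1) (by omega)]
      ring

lemma r_small (t c : K) (hc : 2 - t = c) (h : c ^ 2 = c + 1) :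
    r t 0 = 1 ∧ r t 1 = 1 + c ∧ r t 2 = 2 * c ∧ r t 3 = 1 + c ∧ r t 4 = 1 := by
  have h2 : ∀ n, r t (n + 2) = c * r t (n + 1) - r t n := by
    intro n
    rw [← hc]
    rfl
  have e0 : r t 0 = 1 := rfl
  have e1 : r t 1 = 1 + c := by rw [← hc]; show 3 - t = _; ring
  have e2 := h2 0
  have e3 := h2 1
  have e4 := h2 2
  norm_num at e2 e3 e4
  refine ⟨e0, e1, ?_, ?_, ?_⟩
  · rw [e2, e1, e0]; linear_combination h
  · rw [e3, e2, e1, e0]; linear_combination (c + 2) * h
  · rw [e4, e3, e2, e1, e0]; linear_combination (c ^ 2 + 2 * c) * h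

end period

end Pool.Agent.W5h28.FL
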