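import Pool.Agent.W5h28.FL

set_option autoImplicit false
set_option linter.unusedSectionVars false

namespace Pool.Agent.W5h28.FL

open Finset Pool.Agent.W5h28.Cheb Pool.Agent.W5h28.Zp

/-- Lucas numbers -/
def luc : ℕ → ℤ
  | 0 => 2
  | 1 => 1
  | n + 2 => luc (n + 1) + luc n

/-- the sign `(p/5)` by residue classes -/
def ep (p : ℕ) : ℤ := if p % 5 = 1 ∨ p % 5 = 4 then 1 else -1

local instance : Coe ℚ ℝ := ⟨fun x => (x : ℝ)⟩

lemma luc_eq (n : ℕ) : (luc n : ℝ) = Real.goldenRatio ^ n + Real.goldenConj ^ n := by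
  induction n using Nat.strong_induction_on with
  | _ n ih =>
    match n, ih with
    | 0, _ => norm_num [luc]
    | 1, _ => simp [luc, Real.goldenRatio_add_goldenConj]
    | n + 2, ih =>
      rw [luc]
      push_cast
      rw [ih (n + 1) (by omega), ih n (by omega)]
      linear_combination (-Real.goldenRatio ^ n) * Real.goldenRatio_sq
        - Real.goldenConj ^ n * Real.goldenConj_sq

lemma fib_eq (n : ℕ) : √5 * (Nat.fib n : ℝ) = Real.goldenRatio ^ n - Real.goldenConj ^ n := by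
  rw [Real.coe_fib_eq]
  have : √5 ≠ 0 := by positivity
  field_simp

lemma cc_cast (n k : ℕ) : ((cc (n : ℚ) k : ℚ) : ℝ) = cc (n : ℝ) k := by
  unfold cc Q
  push_cast
  rfl

lemma dd_cast (m k : ℕ) : ((dd (2 * (m : ℚ) + 1) k : ℚ) : ℝ) = dd (2 * (m : ℝ) + 1) k := by
  unfold dd R
  push_cast
  rfl

lemma w_odd (t c : ℝ) (hc : 2 - t = c) (h : c ^ 2 = c + 1) (p : ℕ) (hp : p % 2 = 1) (h5 : p % 5 ≠ 0) :
    w t p = if p % 5 = 1 ∨ p % 5 = 4 then c else 1 - c := by
  obtain ⟨s0, s1, s2, s3, s4⟩ := w_small t c hc h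
  induction p using Nat.strong_induction_on with
  | _ p ih =>
    rcases Nat.lt_or_ge p 10 with hlt | hge
    · have h7 := w_period t c hc h 2
      have h9 := w_period t c hc h 4
      rw [s2] at h7
      rw [s4] at h9
      clear ih
      norm_num at h7 h9
      interval_cases p
      · omega
      · simpa using s1
      · omega
      · simpa using s3
      · omega
      · omega
      · omega
      · simpa using h7
      · omega
      · simpa using h9
    · obtain ⟨n, rfl⟩ : ∃ n, p = n + 5 + 5 := ⟨p - 10, by omega⟩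
      rw [w_period t c hc h (n + 5), w_period t c hc h n, neg_neg]
      have := ih n (by omega) (by omega) (by omega)
      rw [this]
      have e : (n + 5 + 5) % 5 = n % 5 := by omega
      rw [e]

lemma r_odd (t c : ℝ) (hc : 2 - t = c) (h : c ^ 2 = c + 1) (m : ℕ) (h5 : (2 * m + 1) % 5 ≠ 0) :
    r t m = (-1) ^ m * if (2 * m + 1) % 5 = 1 ∨ (2 * m + 1) % 5 = 4 then 1 else -(1 + c) := by
  obtain ⟨s0, s1, s2, s3, s4⟩ := r_small t c hc h
  induction m using Nat.strong_induction_on with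
  | _ m ih =>
    rcases Nat.lt_or_ge m 5 with hlt | hge
    · interval_cases m
      · simp [s0]
      · simp [s1]
      · simp at h5
      · simp [s3]; ring
      · rw [s4]; norm_num
    · obtain ⟨n, rfl⟩ : ∃ n, m = n + 5 := ⟨m - 5, by omega⟩
      rw [r_period t c hc h n]
      have := ih n (by omega) (by omega)
      rw [this]
      have e : (2 * (n + 5) + 1) % 5 = (2 * n + 1) % 5 := by omega
      rw [e, pow_add]
      ring

lemma hphi : 2 - Real.goldenRatio ^ 2 = Real.goldenConj := by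
  rw [Real.goldenRatio_sq]
  linear_combination -Real.goldenRatio_add_goldenConj

lemma hpsi : 2 - Real.goldenConj ^ 2 = Real.goldenRatio := by
  rw [Real.goldenConj_sq]
  linear_combination -Real.goldenRatio_add_goldenConj

theorem id_one (p : ℕ) (hp : p % 2 = 1) (h5 : p % 5 ≠ 0) :
    ∑ k ∈ range (p + 1), cc (p : ℚ) k * (Nat.fib (2 * k) : ℚ) = -(ep p : ℚ) := by
  have h1 := sum_cc (Real.goldenRatio ^ 2) p (p + 1) le_rfl
  have h2 := sum_cc (Real.goldenConj ^ 2) p (p + 1) le_rfl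
  rw [w_odd _ _ hphi Real.goldenConj_sq p hp h5] at h1
  rw [w_odd _ _ hpsi Real.goldenRatio_sq p hp h5] at h2
  have hs : √5 ≠ (0 : ℝ) := by positivity
  have h3 : √5 * ∑ k ∈ range (p + 1), cc (p : ℝ) k * (Nat.fib (2 * k) : ℝ)
      = √5 * (-(ep p : ℝ)) := by
    rw [mul_sum]
    have e : ∀ k ∈ range (p + 1), √5 * (cc (p : ℝ) k * (Nat.fib (2 * k) : ℝ))
        = cc (p : ℝ) k * (Real.goldenRatio ^ 2) ^ k - cc (p : ℝ) k * (Real.goldenConj ^ 2) ^ k := by
      intro k _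
      rw [← pow_mul, ← pow_mul]
      linear_combination cc (p : ℝ) k * fib_eq (2 * k)
    rw [sum_congr rfl e, sum_sub_distrib, h1, h2, ← Real.goldenRatio_sub_goldenConj]
    unfold ep
    split_ifs <;> push_cast <;> ring
  have h4 := mul_left_cancel₀ hs h3
  have h5 : ((∑ k ∈ range (p + 1), cc (p : ℚ) k * (Nat.fib (2 * k) : ℚ) : ℚ) : ℝ)
      = ((-(ep p : ℚ) : ℚ) : ℝ) := by
    push_cast
    rw [← h4]
    refine sum_congr rfl fun k _ => ?_
    rw [cc_cast]
  exact_mod_cast h5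

theorem id_two (p : ℕ) (hp : p % 2 = 1) (h5 : p % 5 ≠ 0) :
    ∑ k ∈ range (p + 1), cc (p : ℚ) k * (luc (2 * k) : ℚ) = 1 := by
  have h1 := sum_cc (Real.goldenRatio ^ 2) p (p + 1) le_rfl
  have h2 := sum_cc (Real.goldenConj ^ 2) p (p + 1) le_rfl
  rw [w_odd _ _ hphi Real.goldenConj_sq p hp h5] at h1
  rw [w_odd _ _ hpsi Real.goldenRatio_sq p hp h5] at h2
  have h3 : ∑ k ∈ range (p + 1), cc (p : ℝ) k * (luc (2 * k) : ℝ) = 1 := by
    have e : ∀ k ∈ range (p + 1), cc (p : ℝ) k * (luc (2 * k) : ℝ)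
        = cc (p : ℝ) k * (Real.goldenRatio ^ 2) ^ k + cc (p : ℝ) k * (Real.goldenConj ^ 2) ^ k := by
      intro k _
      rw [← pow_mul, ← pow_mul, luc_eq]
      ring
    rw [sum_congr rfl e, sum_add_distrib, h1, h2]
    have := Real.goldenRatio_add_goldenConj
    split_ifs
    · linear_combination this
    · linear_combination -this
  have h5 : ((∑ k ∈ range (p + 1), cc (p : ℚ) k * (luc (2 * k) : ℚ) : ℚ) : ℝ) = ((1 : ℚ) : ℝ) := by
    push_cast
    rw [← h3]
    refine sum_congr rfl fun k _ => ?_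
    rw [cc_cast]
  exact_mod_cast h5

theorem id_three (m : ℕ) (h5 : (2 * m + 1) % 5 ≠ 0) :
    ∑ k ∈ range (m + 1), dd (2 * (m : ℚ) + 1) k * (Nat.fib (2 * k + 1) : ℚ)
      = (-1) ^ m * (ep (2 * m + 1) : ℚ) := by
  have h1 := sum_dd (Real.goldenRatio ^ 2) m (m + 1) le_rfl
  have h2 := sum_dd (Real.goldenConj ^ 2) m (m + 1) le_rfl
  rw [r_odd _ _ hphi Real.goldenConj_sq m h5] at h1
  rw [r_odd _ _ hpsi Real.goldenRatio_sq m h5] at h2
  have hs : √5 ≠ (0 : ℝ) := by positivity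
  have h3 : √5 * ∑ k ∈ range (m + 1), dd (2 * (m : ℝ) + 1) k * (Nat.fib (2 * k + 1) : ℝ)
      = √5 * ((-1) ^ m * (ep (2 * m + 1) : ℝ)) := by
    rw [mul_sum]
    have e : ∀ k ∈ range (m + 1), √5 * (dd (2 * (m : ℝ) + 1) k * (Nat.fib (2 * k + 1) : ℝ))
        = Real.goldenRatio * (dd (2 * (m : ℝ) + 1) k * (Real.goldenRatio ^ 2) ^ k)
          - Real.goldenConj * (dd (2 * (m : ℝ) + 1) k * (Real.goldenConj ^ 2) ^ k) := by
      intro k _
      rw [← pow_mul, ← pow_mul]
      linear_combination dd (2 * (m : ℝ) + 1) k * fib_eq (2 * k + 1)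
    rw [sum_congr rfl e, sum_sub_distrib, ← mul_sum, ← mul_sum, h1, h2,
      ← Real.goldenRatio_sub_goldenConj]
    unfold ep
    split_ifs <;> push_cast <;> ring
  have h4 := mul_left_cancel₀ hs h3
  have h5 : ((∑ k ∈ range (m + 1), dd (2 * (m : ℚ) + 1) k * (Nat.fib (2 * k + 1) : ℚ) : ℚ) : ℝ)
      = (((-1) ^ m * (ep (2 * m + 1) : ℚ) : ℚ) : ℝ) := by
    push_cast
    rw [← h4]
    refine sum_congr rfl fun k _ => ?_
    rw [dd_cast]
  exact_mod_cast h5

theorem id_four (m : ℕ) (h5 : (2 * m + 1) % 5 ≠ 0) :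
    ∑ k ∈ range (m + 1), dd (2 * (m : ℚ) + 1) k * (luc (2 * k + 1) : ℚ) = (-1) ^ m := by
  have h1 := sum_dd (Real.goldenRatio ^ 2) m (m + 1) le_rfl
  have h2 := sum_dd (Real.goldenConj ^ 2) m (m + 1) le_rfl
  rw [r_odd _ _ hphi Real.goldenConj_sq m h5] at h1
  rw [r_odd _ _ hpsi Real.goldenRatio_sq m h5] at h2
  have h3 : ∑ k ∈ range (m + 1), dd (2 * (m : ℝ) + 1) k * (luc (2 * k + 1) : ℝ) = (-1) ^ m := by
    have e : ∀ k ∈ range (m + 1), dd (2 * (m : ℝ) + 1) k * (luc (2 * k + 1) : ℝ)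
        = Real.goldenRatio * (dd (2 * (m : ℝ) + 1) k * (Real.goldenRatio ^ 2) ^ k)
          + Real.goldenConj * (dd (2 * (m : ℝ) + 1) k * (Real.goldenConj ^ 2) ^ k) := by
      intro k _
      rw [← pow_mul, ← pow_mul, luc_eq]
      ring
    rw [sum_congr rfl e, sum_add_distrib, ← mul_sum, ← mul_sum, h1, h2]
    have h6 := Real.goldenRatio_add_goldenConj
    have h7 := Real.goldenRatio_mul_goldenConj
    split_ifs
    · linear_combination (-1) ^ m * h6
    · linear_combination -(-1) ^ m * h6 - 2 * (-1) ^ m * h7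
  have h5 : ((∑ k ∈ range (m + 1), dd (2 * (m : ℚ) + 1) k * (luc (2 * k + 1) : ℚ) : ℚ) : ℝ)
      = (((-1) ^ m : ℚ) : ℝ) := by
    push_cast
    rw [← h3]
    refine sum_congr rfl fun k _ => ?_
    rw [dd_cast]
  exact_mod_cast h5

end Pool.Agent.W5h28.FL
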